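import Pool.Agent.Q195.Dist46.NotFlat

/-!
# A hyperbolic `(4,6)`-distribution germ with Reeb directions that is not flat
-/

namespace Pool.Agent.Results.MP_08c0df_gt.NonFlatReeb

open Q195.Dist46

/-- There is a hyperbolic `(4,6)`-distribution germ that admits Reeb directions and is not
diffeomorphic to the flat hyperbolic germ. -/
theorem result : ∃ D : E → Submodule ℝ E,
    IsHyperbolic D 0 ∧ AdmitsReeb D 0 ∧ ¬ GermDiffeo D 0 flat 0 :=
  ⟨Q195.Dist46.D, hyperbolic, reeb, not_flat⟩

end Pool.Agent.Results.MP_08c0df_gt.NonFlatReeb
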